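import Pool.Agent.FewCovers.Tree

/-!
MP_a217f7_co.  Edge-coloured bipartite regular graphs of large girth (Cayley graphs of permutation
groups of a ball in the tree).
-/

set_option autoImplicit false

namespace Pool.Agent.FewCovers

/-- Add or remove the first letter `a`. -/
def sw {k : ℕ} (M : ℕ) (a : Fin k) : List (Fin k) → List (Fin k)
  | [] => if 0 < M then [a] else []
  | b :: t => if b = a then t else if t.length + 1 < M then a :: b :: t else b :: t

theorem sw_good {k : ℕ} (M : ℕ) (a : Fin k) (w : List (Fin k))
    (h : w.IsChain (· ≠ ·) ∧ w.length ≤ M) :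
    (sw M a w).IsChain (· ≠ ·) ∧ (sw M a w).length ≤ M := by
  cases w with
  | nil =>
    unfold sw
    by_cases h0 : 0 < M
    · simp [h0]; omega
    · simp [h0]
  | cons b t =>
    unfold sw
    obtain ⟨h1, h2⟩ := h
    have h2' : t.length + 1 ≤ M := by simpa using h2
    by_cases hb : b = a
    · simp only [hb, if_true]
      exact ⟨(List.isChain_cons.1 h1).2, by omega⟩
    · by_cases hl : t.length + 1 < M
      · simp only [hb, hl, if_true, if_false]
        refine ⟨?_, by simp; omega⟩
        rw [List.isChain_cons_cons]
        exact ⟨fun h => hb h.symm, h1⟩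
      · simp only [hb, hl, if_false]
        exact ⟨h1, h2⟩

theorem sw_sw {k : ℕ} (M : ℕ) (a : Fin k) (w : List (Fin k))
    (h : w.IsChain (· ≠ ·) ∧ w.length ≤ M) : sw M a (sw M a w) = w := by
  cases w with
  | nil =>
    by_cases h0 : 0 < M
    · simp [sw, h0]
    · simp [sw, h0]
  | cons b t =>
    obtain ⟨h1, h2⟩ := h
    have h2' : t.length + 1 ≤ M := by simpa using h2
    by_cases hb : b = a
    · subst hb
      have e : sw M b (b :: t) = t := by simp [sw]
      rw [e]
      cases t with
      | nil =>
        have : 0 < M := by simp at h2'; omega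
        simp [sw, this]
      | cons c t' =>
        have hbc : b ≠ c := (List.isChain_cons_cons.1 h1).1
        have hlen : t'.length + 1 < M := by simp at h2'; omega
        simp [sw, hbc.symm, hlen]
    · by_cases hl : t.length + 1 < M
      · have e : sw M a (b :: t) = a :: b :: t := by simp [sw, hb, hl]
        rw [e]; simp [sw]
      · have e : sw M a (b :: t) = b :: t := by simp [sw, hb, hl]
        rw [e, e]

/-- The ball of radius `M` in the `k`-regular tree: reduced words of length at most `M`. -/
abbrev Ball (k M : ℕ) : Type := {w : List (Fin k) // w.IsChain (· ≠ ·) ∧ w.length ≤ M}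

instance (k M : ℕ) : Finite (Ball k M) := by
  have h : ({w : List (Fin k) | w.length ≤ M}).Finite := List.finite_length_le (Fin k) M
  exact (h.subset (fun w hw => hw.2 : {w : List (Fin k) | w.IsChain (· ≠ ·) ∧ w.length ≤ M} ⊆ _)).to_subtype

/-- The generator `a`. -/
def gen (k M : ℕ) (a : Fin k) : Equiv.Perm (Ball k M) where
  toFun w := ⟨sw M a w.1, sw_good M a w.1 w.2⟩
  invFun w := ⟨sw M a w.1, sw_good M a w.1 w.2⟩
  left_inv w := Subtype.ext (sw_sw M a w.1 w.2)
  right_inv w := Subtype.ext (sw_sw M a w.1 w.2)

theorem gen_sq (k M : ℕ) (a : Fin k) : gen k M a * gen k M a = 1 := by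
  apply Equiv.ext
  intro w
  apply Subtype.ext
  show (sw M a (sw M a w.1)) = w.1
  exact sw_sw M a w.1 w.2

theorem gen_prod (k M : ℕ) (w : List (Fin k)) (h : w.IsChain (· ≠ ·) ∧ w.length ≤ M) :
    ((w.map (gen k M)).prod ⟨[], by simp⟩ : Ball k M) = ⟨w, h⟩ := by
  induction w with
  | nil => simp
  | cons a t ih =>
    obtain ⟨h1, h2⟩ := h
    have h2' : t.length + 1 ≤ M := by simpa using h2
    have ih' := ih ⟨(List.isChain_cons.1 h1).2, by omega⟩
    rw [List.map_cons, List.prod_cons, Equiv.Perm.mul_apply, ih']
    apply Subtype.ext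
    show sw M a t = a :: t
    cases t with
    | nil =>
      have : 0 < M := by simp at h2'; omega
      simp [sw, this]
    | cons c t' =>
      have hac : a ≠ c := (List.isChain_cons_cons.1 h1).1
      have hlen : t'.length + 1 < M := by simp at h2'; omega
      simp [sw, hac.symm, hlen]

/-- The vertices of the bipartite Cayley graph. -/
abbrev CV (k M : ℕ) : Type := Bool × Equiv.Perm (Ball k M)

/-- The neighbour of colour `a`. -/
def cnb (k M : ℕ) (a : Fin k) (v : CV k M) : CV k M := (!v.1, v.2 * gen k M a)

theorem act_cnb (k M : ℕ) (w : List (Fin k)) (v : CV k M) :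
    (act (cnb k M) w v).2 = v.2 * (w.map (gen k M)).prod := by
  induction w generalizing v with
  | nil => simp [act]
  | cons a t ih =>
    rw [List.map_cons, List.prod_cons]
    show (act (cnb k M) t (cnb k M a v)).2 = _
    rw [ih]
    simp [cnb, mul_assoc]

theorem cnb_girth (k M : ℕ) : Girth (cnb k M) M where
  inv a v := by
    simp only [cnb, Bool.not_not]
    rw [mul_assoc, gen_sq, mul_one]
  free w v hw hc hl heq := by
    have h1 : (act (cnb k M) w v).2 = v.2 := by rw [heq]
    rw [act_cnb] at h1
    have h2 : (w.map (gen k M)).prod = 1 := by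
      have := mul_left_cancel (a := v.2) (b := (w.map (gen k M)).prod) (c := 1) (by rw [h1, mul_one])
      exact this
    have h3 := gen_prod k M w ⟨hc, hl⟩
    rw [h2] at h3
    apply hw
    have := congrArg Subtype.val h3
    simpa using this.symm

end Pool.Agent.FewCovers
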