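import Mathlib

/-!
MP_a217f7_co.  Definitions for posets with few covers.
-/

set_option autoImplicit false

namespace Pool.Agent.FewCovers

/-- `k`-sparse cuts: for every lower set `X` which contains all minimal elements of `P` and no
maximal element of `P`, the elements below some `y ∉ X` are dominated by at most `k` elements
of `X`, or the elements above some `x ∈ X` dominate at most `k` elements outside `X`. -/
def SparseCuts (k : ℕ) (P : Type) [PartialOrder P] : Prop :=
  ∀ X : Set P, IsLowerSet X → (∀ m, IsMin m → m ∈ X) → (∀ m, IsMax m → m ∉ X) →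
    (∃ y, y ∉ X ∧ ∃ D : Finset P, D.card ≤ k ∧ (∀ d ∈ D, d ∈ X) ∧
      ∀ z, z < y → ∃ d ∈ D, z ≤ d) ∨
    (∃ x, x ∈ X ∧ ∃ U : Finset P, U.card ≤ k ∧ (∀ u ∈ U, u ∉ X) ∧
      ∀ z, x < z → ∃ u ∈ U, u ≤ z)

/-- Every bipartite minor of the cover graph of `P` has a vertex of degree at most `k`: whenever
some elements of `P` are distributed over nonempty classes which are connected in the cover graph
(the Hasse diagram), and the classes are coloured with two colours, some class has a cover relation
with at most `k` classes of the other colour. -/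
def SparseMinors (k : ℕ) (P : Type) [PartialOrder P] : Prop :=
  ∀ (W : Type) [Fintype W] [Nonempty W] (β : P → Option W) (c : W → Bool),
    (∀ w, ((SimpleGraph.hasse P).induce {p | β p = some w}).Connected) →
    ∃ w, Set.ncard {w' : W | c w' ≠ c w ∧
      ∃ p q : P, β p = some w ∧ β q = some w' ∧ (p ⋖ q ∨ q ⋖ p)} ≤ k

end Pool.Agent.FewCovers
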