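import Pool.Agent.FewCovers.Local
import Pool.Agent.FewCovers.Defs

/-!
MP_a217f7_co.  Posets with few lower covers: duality and the existence of a central element.
-/

set_option autoImplicit false

namespace Pool.Agent.FewCovers

theorem cnt_equiv {P Q : Type} [Fintype P] [Fintype Q] {p : Set P → Prop} {q : Set Q → Prop}
    (e : Set P ≃ Set Q) (h : ∀ s, p s ↔ q (e s)) : cnt p = cnt q := by
  classical
  unfold cnt
  apply Fintype.sum_equiv e
  intro s
  by_cases hs : p s
  · simp [hs, (h s).1 hs]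
  · have : ¬ q (e s) := fun hq => hs ((h s).2 hq)
    simp [hs, this]

/-- Complementation between the sets of the dual poset and the sets of the poset. -/
def dualEquiv (P : Type) : Set Pᵒᵈ ≃ Set P where
  toFun s := {x | OrderDual.toDual x ∉ s}
  invFun t := {x | OrderDual.ofDual x ∉ t}
  left_inv s := by ext x; simp
  right_inv t := by ext x; simp

theorem dualEquiv_lower {P : Type} [PartialOrder P] (s : Set Pᵒᵈ) :
    IsLowerSet s ↔ IsLowerSet (dualEquiv P s) := by
  constructor
  · intro h a b hba ha hb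
    exact ha (h (a := OrderDual.toDual b) (b := OrderDual.toDual a) hba hb)
  · intro h a b hba ha
    by_contra hb
    exact h (a := OrderDual.ofDual b) (b := OrderDual.ofDual a) hba hb ha

theorem NI_dual (P : Type) [Fintype P] [PartialOrder P] : NI Pᵒᵈ = NI P :=
  cnt_equiv (dualEquiv P) (fun s => dualEquiv_lower s)

theorem NX_dual {P : Type} [Fintype P] [PartialOrder P] (x : P) :
    NX (OrderDual.toDual x) = NI P - NX x := by
  have h1 : NX (OrderDual.toDual x) = cnt (fun s : Set P => IsLowerSet s ∧ ¬ x ∈ s) := by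
    refine cnt_equiv (dualEquiv P) ?_
    intro s
    rw [← dualEquiv_lower]
    simp [dualEquiv]
  have h2 : NI P = NX x + cnt (fun s : Set P => IsLowerSet s ∧ ¬ x ∈ s) := by
    unfold NI NX
    exact cnt_split _ _
  rw [h1]; linarith

theorem local_high {P : Type} [Fintype P] [PartialOrder P] (k : ℕ) (hk : 1 ≤ k) (δ : ℝ)
    (h0 : 0 < δ) (h1 : δ < 1 / 2) (hδ : δ * (1 - δ) ^ (k - 1) ≤ (1 - 2 * δ) ^ k)
    (x : P) (hx : (1 - δ) * NI P < NX x) (U : Finset P) (hUcard : U.card ≤ k)
    (hdom : ∀ z, x < z → ∃ u ∈ U, u ≤ z)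
    (hu : ∀ u ∈ U, NX u < δ * NI P) : False := by
  refine local_low (P := Pᵒᵈ) k hk δ h0 h1 hδ (OrderDual.toDual x) ?_
    (U.map OrderDual.toDual.toEmbedding) ?_ ?_ ?_
  · rw [NX_dual, NI_dual]; linarith
  · rw [Finset.card_map]; exact hUcard
  · intro z hz
    obtain ⟨u, hu1, hu2⟩ := hdom (OrderDual.ofDual z) hz
    exact ⟨OrderDual.toDual u, Finset.mem_map.2 ⟨u, hu1, rfl⟩, hu2⟩
  · intro d hd
    obtain ⟨u, hu1, rfl⟩ := Finset.mem_map.1 hd
    have h3 := hu u hu1
    have h4 := NX_dual u
    have h5 : OrderDual.toDual.toEmbedding u = OrderDual.toDual u := rfl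
    rw [h5, h4, NI_dual]
    linarith

theorem central {P : Type} [Fintype P] [Nonempty P] [PartialOrder P] (k : ℕ) (hk : 1 ≤ k) (δ : ℝ)
    (h0 : 0 < δ) (h1 : δ < 1 / 2) (hδ : δ * (1 - δ) ^ (k - 1) ≤ (1 - 2 * δ) ^ k)
    (hP : SparseCuts k P) :
    ∃ x : P, δ * NI P ≤ NX x ∧ NX x ≤ (1 - δ) * NI P := by
  classical
  by_contra hcon
  push Not at hcon
  set X : Set P := {x | (1 - δ) * NI P < NX x} with hX
  have hmono : ∀ a b : P, a ≤ b → NX b ≤ NX a := by
    intro a b hab
    exact cnt_mono (fun s hs => ⟨hs.1, hs.1 hab hs.2⟩)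
  have hXl : IsLowerSet X := by
    intro a b hba ha
    exact lt_of_lt_of_le ha (hmono b a hba)
  have hnot : ∀ y, y ∉ X → NX y < δ * NI P := by
    intro y hy
    by_contra h
    push Not at h
    exact hy (hcon y h)
  have low : ∀ y, y ∉ X → ∀ D : Finset P, D.card ≤ k → (∀ d ∈ D, d ∈ X) →
      (∀ z, z < y → ∃ d ∈ D, z ≤ d) → False := by
    intro y hy D hD hDX hdom
    exact local_low k hk δ h0 h1 hδ y (hnot y hy) D hD hdom (fun d hd => hDX d hd)
  have high : ∀ x, x ∈ X → ∀ U : Finset P, U.card ≤ k → (∀ u ∈ U, u ∉ X) →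
      (∀ z, x < z → ∃ u ∈ U, u ≤ z) → False := by
    intro x hx U hU hUX hdom
    exact local_high k hk δ h0 h1 hδ x hx U hU hdom (fun u hu => hnot u (hUX u hu))
  have hmin : ∀ m, IsMin m → m ∈ X := by
    intro m hm
    by_contra hmX
    exact low m hmX ∅ (by simp) (by simp) (fun z hz => absurd hz hm.not_lt)
  have hmax : ∀ m, IsMax m → m ∉ X := by
    intro m hm hmX
    exact high m hmX ∅ (by simp) (by simp) (fun z hz => absurd hz hm.not_lt)
  rcases hP X hXl hmin hmax with ⟨y, hy, D, hD, hDX, hdom⟩ | ⟨x, hx, U, hU, hUX, hdom⟩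
  · exact low y hy D hD hDX hdom
  · exact high x hx U hU hUX hdom

/-- The cut has elements on both sides. -/
theorem cut_nonempty {P : Type} [Fintype P] [Nonempty P] [PartialOrder P] {X : Set P}
    (hmin : ∀ m, IsMin m → m ∈ X) (hmax : ∀ m, IsMax m → m ∉ X) :
    X.Nonempty ∧ (Xᶜ).Nonempty := by
  constructor
  · obtain ⟨m, -, hm⟩ := (Set.toFinite (Set.univ : Set P)).exists_le_minimal
      (Set.mem_univ (Classical.arbitrary P))
    refine ⟨m, hmin m ?_⟩
    intro z hz
    exact hm.2 (Set.mem_univ z) hz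
  · obtain ⟨m, -, hm⟩ := (Set.toFinite (Set.univ : Set P)).exists_le_maximal
      (Set.mem_univ (Classical.arbitrary P))
    refine ⟨m, hmax m ?_⟩
    intro z hz
    exact hm.2 (Set.mem_univ z) hz

/-- At most `k` lower covers everywhere, or at most `k` upper covers everywhere. -/
theorem sparse_of_covers {P : Type} [Fintype P] [Nonempty P] [PartialOrder P] (k : ℕ)
    (h : (∀ y : P, Set.ncard {d : P | d ⋖ y} ≤ k) ∨ (∀ x : P, Set.ncard {u : P | x ⋖ u} ≤ k)) :
    SparseCuts k P := by
  classical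
  intro X hX hmin hmax
  obtain ⟨hE, hF⟩ := cut_nonempty hmin hmax
  rcases h with h | h
  · left
    obtain ⟨y, -, hy⟩ := (Set.toFinite (Xᶜ)).exists_le_minimal hF.some_mem
    refine ⟨y, hy.1, (Set.toFinite {d : P | d ⋖ y}).toFinset, ?_, ?_, ?_⟩
    · rw [← Set.ncard_eq_toFinset_card _ (Set.toFinite _)]; exact h y
    · intro d hd
      have hd' : d ⋖ y := by simpa using hd
      by_contra hdX
      exact hy.not_lt hdX hd'.lt
    · intro z hz
      obtain ⟨d, hzd, hd⟩ := exists_le_covBy_of_lt hz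
      exact ⟨d, by simpa using hd, hzd⟩
  · right
    obtain ⟨x, -, hx⟩ := (Set.toFinite X).exists_le_maximal hE.some_mem
    refine ⟨x, hx.1, (Set.toFinite {u : P | x ⋖ u}).toFinset, ?_, ?_, ?_⟩
    · rw [← Set.ncard_eq_toFinset_card _ (Set.toFinite _)]; exact h x
    · intro u hu huX
      have hu' : x ⋖ u := by simpa using hu
      exact hx.not_gt huX hu'.lt
    · intro z hz
      obtain ⟨u, hu, huz⟩ := exists_covBy_le_of_lt hz
      exact ⟨u, by simpa using hu, huz⟩

/-- Width at most `k`. -/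
theorem sparse_of_width {P : Type} [Fintype P] [Nonempty P] [PartialOrder P] (k : ℕ)
    (h : ∀ A : Finset P, IsAntichain (· ≤ ·) (A : Set P) → A.card ≤ k) :
    SparseCuts k P := by
  classical
  intro X hX hmin hmax
  obtain ⟨hE, hF⟩ := cut_nonempty hmin hmax
  left
  obtain ⟨y, -, hy⟩ := (Set.toFinite (Xᶜ)).exists_le_minimal hF.some_mem
  refine ⟨y, hy.1, (Set.toFinite {d : P | Maximal (· ∈ X) d}).toFinset, ?_, ?_, ?_⟩
  · apply h
    intro a ha b hb hab hle
    have ha' : Maximal (· ∈ X) a := by simpa using ha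
    have hb' : Maximal (· ∈ X) b := by simpa using hb
    exact hab (le_antisymm hle (ha'.2 hb'.1 hle))
  · intro d hd
    have hd' : Maximal (· ∈ X) d := by simpa using hd
    exact hd'.1
  · intro z hz
    have hzX : z ∈ X := by
      by_contra hzX
      exact hy.not_lt hzX hz
    obtain ⟨d, hzd, hd⟩ := (Set.toFinite X).exists_le_maximal hzX
    exact ⟨d, by simpa using hd, hzd⟩

/-- Posets without chains of three elements in which some element is comparable to at most `k`
others. -/
theorem sparse_of_lengthOne {P : Type} [Fintype P] [PartialOrder P] (k : ℕ)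
    (hl : ∀ a b c : P, a < b → ¬ b < c) (v : P) (hv : Set.ncard {w : P | w < v ∨ v < w} ≤ k) :
    SparseCuts k P := by
  classical
  intro X hX hmin hmax
  by_cases h1 : ∃ z, z < v
  · obtain ⟨z, hz⟩ := h1
    left
    refine ⟨v, hmax v ?_, (Set.toFinite {w : P | w < v ∨ v < w}).toFinset, ?_, ?_, ?_⟩
    · intro w hw
      rcases hw.eq_or_lt with rfl | hlt
      · exact le_rfl
      · exact absurd hlt (hl z v w hz)
    · rw [← Set.ncard_eq_toFinset_card _ (Set.toFinite _)]; exact hv
    · intro w hw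
      have hw' : w < v ∨ v < w := by simpa using hw
      rcases hw' with hw' | hw'
      · apply hmin w
        intro u hu
        rcases hu.eq_or_lt with rfl | hlt
        · exact le_rfl
        · exact absurd hw' (hl u w v hlt)
      · exact absurd hw' (hl z v w hz)
    · intro w hw
      exact ⟨w, by simpa using Or.inl hw, le_rfl⟩
  · have hvmin : IsMin v := by
      intro w hw
      rcases hw.eq_or_lt with rfl | hlt
      · exact le_rfl
      · exact absurd ⟨w, hlt⟩ h1
    right
    refine ⟨v, hmin v hvmin, (Set.toFinite {w : P | w < v ∨ v < w}).toFinset, ?_, ?_, ?_⟩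
    · rw [← Set.ncard_eq_toFinset_card _ (Set.toFinite _)]; exact hv
    · intro w hw
      have hw' : w < v ∨ v < w := by simpa using hw
      rcases hw' with hw' | hw'
      · exact absurd ⟨w, hw'⟩ h1
      · apply hmax w
        intro u hu
        rcases hu.eq_or_lt with rfl | hlt
        · exact le_rfl
        · exact absurd hlt (hl v w u hw')
    · intro w hw
      exact ⟨w, by simpa using Or.inr hw, le_rfl⟩

end Pool.Agent.FewCovers
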