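import Pool.Agent.FewCovers.Tree

/-!
MP_a217f7_co.  The limit of the tree recursion: uniqueness of the fixed point for `k ≤ 5`.
-/

set_option autoImplicit false

namespace Pool.Agent.FewCovers

open Filter Topology

/-- No cycle of length two for the recursion, `d ≤ 4`. -/
theorem no_two_cycle (d : ℕ) (hd : d ≤ 4) (l u : ℝ) (hl : 0 < l) (hu : 0 < u)
    (h1 : l * (1 + u) ^ d = 1) (h2 : u * (1 + l) ^ d = 1) : l = u := by
  interval_cases d
  · simp at h1 h2; rw [h1, h2]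
  · simp at h1 h2; nlinarith
  · by_contra hne
    have h3 : (l - u) * (1 - l * u) = 0 := by nlinarith
    rcases mul_eq_zero.1 h3 with h | h
    · exact hne (by linarith)
    · have : l * u = 1 := by linarith
      nlinarith
  · by_contra hne
    have h3 : (l - u) * (1 - l * u * (3 + l + u)) = 0 := by nlinarith
    have h4 : l * u * (3 + l + u) = 1 := by
      rcases mul_eq_zero.1 h3 with h | h
      · exact absurd (by linarith) hne
      · linarith
    have hs : 1 ≤ l + u := by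
      by_contra hcon
      push Not at hcon
      have h5 : 4 * (l * u) ≤ (l + u) ^ 2 := by nlinarith [sq_nonneg (l - u)]
      have h6 : (l + u) ^ 2 < 1 := by nlinarith
      nlinarith [mul_pos hl hu]
    have h5 : (l * u) * ((1 + u) * (1 + l)) ^ 3 = 1 := by
      calc (l * u) * ((1 + u) * (1 + l)) ^ 3 = (l * (1 + u) ^ 3) * (u * (1 + l) ^ 3) := by ring
        _ = 1 := by rw [h1, h2]; ring
    have h6 : (1 + u) * (1 + l) = 1 + (l + u) + l * u := by ring
    rw [h6] at h5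
    set s := l + u with hsdef
    set p := l * u with hp
    have hppos : 0 < p := mul_pos hl hu
    have h7 : p * (3 + s) = 1 := by rw [← h4]; ring
    have h8 : 3 + s < (1 + s + p) ^ 3 := by nlinarith [mul_pos hppos hppos, sq_nonneg s, sq_nonneg (s + p), mul_nonneg (show (0:ℝ) ≤ s by linarith) hppos.le]
    nlinarith
  · by_contra hne
    set a := Real.sqrt l with ha
    set b := Real.sqrt u with hb
    have ha2 : a ^ 2 = l := Real.sq_sqrt hl.le
    have hb2 : b ^ 2 = u := Real.sq_sqrt hu.le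
    have hapos : 0 < a := Real.sqrt_pos.2 hl
    have hbpos : 0 < b := Real.sqrt_pos.2 hu
    have e1 : a * (1 + b ^ 2) ^ 2 = 1 := by
      have : (a * (1 + b ^ 2) ^ 2) ^ 2 = 1 := by
        calc (a * (1 + b ^ 2) ^ 2) ^ 2 = a ^ 2 * (1 + b ^ 2) ^ 4 := by ring
          _ = 1 := by rw [ha2, hb2, h1]
      nlinarith [show 0 < a * (1 + b ^ 2) ^ 2 by positivity]
    have e2 : b * (1 + a ^ 2) ^ 2 = 1 := by
      have : (b * (1 + a ^ 2) ^ 2) ^ 2 = 1 := by
        calc (b * (1 + a ^ 2) ^ 2) ^ 2 = b ^ 2 * (1 + a ^ 2) ^ 4 := by ring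
          _ = 1 := by rw [ha2, hb2, h2]
      nlinarith [show 0 < b * (1 + a ^ 2) ^ 2 by positivity]
    have hab : a ≠ b := fun h => hne (by rw [← ha2, ← hb2, h])
    have h3 : (a - b) * (1 - a * b * (2 + (a ^ 2 + b ^ 2) + a * b)) = 0 := by nlinarith
    have h4 : a * b * (2 + (a ^ 2 + b ^ 2) + a * b) = 1 := by
      rcases mul_eq_zero.1 h3 with h | h
      · exact absurd (by linarith) hab
      · linarith
    have h5 : (a * b) * (1 + (a ^ 2 + b ^ 2) + (a * b) ^ 2) ^ 2 = 1 := by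
      calc (a * b) * (1 + (a ^ 2 + b ^ 2) + (a * b) ^ 2) ^ 2 =
          (a * (1 + b ^ 2) ^ 2) * (b * (1 + a ^ 2) ^ 2) := by ring
        _ = 1 := by rw [e1, e2]; ring
    have hs : 2 * (a * b) ≤ a ^ 2 + b ^ 2 := by nlinarith [sq_nonneg (a - b)]
    set t := a * b with ht
    set s := a ^ 2 + b ^ 2 with hs'
    have htpos : 0 < t := mul_pos hapos hbpos
    have ht3 : t ≤ 1 / 3 := by
      by_contra hcon
      push Not at hcon
      nlinarith
    have hts : t * s = 1 - 2 * t - t ^ 2 := by nlinarith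
    have h6 : (1 - t - t ^ 2 + t ^ 3) ^ 2 = t := by
      calc (1 - t - t ^ 2 + t ^ 3) ^ 2 = (t + t * s + t ^ 3) ^ 2 := by rw [hts]; ring
        _ = t * (t * (1 + s + t ^ 2) ^ 2) := by ring
        _ = t := by rw [h5]; ring
    have h7 : 16 / 27 ≤ 1 - t - t ^ 2 + t ^ 3 := by
      nlinarith [mul_nonneg (show (0:ℝ) ≤ 1 / 3 - t by linarith) htpos.le, mul_nonneg (mul_nonneg (show (0:ℝ) ≤ 1 / 3 - t by linarith) htpos.le) htpos.le]
    nlinarith

theorem bd_mono (d n : ℕ) : (bd d n).1 ≤ (bd d (n + 1)).1 ∧ (bd d (n + 1)).2 ≤ (bd d n).2 := by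
  induction n with
  | zero =>
    constructor
    · exact (bd_nonneg d 1).1
    · simp [bd]
  | succ n ih =>
    obtain ⟨h1, h2⟩ := ih
    have p1 := bd_nonneg d n
    have p2 := bd_nonneg d (n + 1)
    constructor
    · show ((1 + (bd d n).2) ^ d)⁻¹ ≤ ((1 + (bd d (n + 1)).2) ^ d)⁻¹
      apply inv_anti₀ (pow_pos (by linarith [p2.2]) d)
      exact pow_le_pow_left₀ (by linarith [p2.2]) (by linarith) d
    · show ((1 + (bd d (n + 1)).1) ^ d)⁻¹ ≤ ((1 + (bd d n).1) ^ d)⁻¹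
      apply inv_anti₀ (pow_pos (by linarith [p1.1]) d)
      exact pow_le_pow_left₀ (by linarith [p1.1]) (by linarith) d

theorem bd_le (d n : ℕ) : (bd d n).1 ≤ 1 := by
  cases n with
  | zero => simp [bd]
  | succ n =>
    have p1 := bd_nonneg d n
    show ((1 + (bd d n).2) ^ d)⁻¹ ≤ 1
    apply inv_le_one_of_one_le₀
    exact one_le_pow₀ (by linarith [p1.2])

theorem exists_depth (k : ℕ) (hk1 : 1 ≤ k) (hk5 : k ≤ 5) (δ : ℝ) (hδ : δ < 1 / 2)
    (h : (1 - 2 * δ) ^ k < δ * (1 - δ) ^ (k - 1)) :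
    ∃ n, ((1 + (bd (k - 1) n).1) ^ k)⁻¹ * (1 - δ) < δ := by
  obtain ⟨d, rfl⟩ : ∃ d, k = d + 1 := ⟨k - 1, by omega⟩
  simp only [Nat.add_sub_cancel] at h ⊢
  have hmono : Monotone (fun n => (bd d n).1) := monotone_nat_of_le_succ (fun n => (bd_mono d n).1)
  have hanti : Antitone (fun n => (bd d n).2) := antitone_nat_of_succ_le (fun n => (bd_mono d n).2)
  have hb1 : BddAbove (Set.range (fun n => (bd d n).1)) := ⟨1, by
    rintro _ ⟨n, rfl⟩; exact bd_le d n⟩
  have hb2 : BddBelow (Set.range (fun n => (bd d n).2)) := ⟨0, by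
    rintro _ ⟨n, rfl⟩; exact (bd_nonneg d n).2⟩
  have tl := tendsto_atTop_ciSup hmono hb1
  have tu := tendsto_atTop_ciInf hanti hb2
  set l := ⨆ n, (bd d n).1 with hl
  set u := ⨅ n, (bd d n).2 with hu
  have hu0 : 0 ≤ u := ge_of_tendsto' tu (fun n => (bd_nonneg d n).2)
  have hl0 : 0 ≤ l := ge_of_tendsto' tl (fun n => (bd_nonneg d n).1)
  have tl' : Tendsto (fun n => (bd d (n + 1)).1) atTop (𝓝 l) := (tendsto_add_atTop_iff_nat 1).2 tl
  have tu' : Tendsto (fun n => (bd d (n + 1)).2) atTop (𝓝 u) := (tendsto_add_atTop_iff_nat 1).2 tu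
  have tl2 : Tendsto (fun n => (bd d (n + 1)).1) atTop (𝓝 (((1 + u) ^ d)⁻¹)) := by
    show Tendsto (fun n => ((1 + (bd d n).2) ^ d)⁻¹) atTop (𝓝 (((1 + u) ^ d)⁻¹))
    exact ((tu.const_add 1).pow d).inv₀ (by positivity)
  have tu2 : Tendsto (fun n => (bd d (n + 1)).2) atTop (𝓝 (((1 + l) ^ d)⁻¹)) := by
    show Tendsto (fun n => ((1 + (bd d n).1) ^ d)⁻¹) atTop (𝓝 (((1 + l) ^ d)⁻¹))
    exact ((tl.const_add 1).pow d).inv₀ (by positivity)
  have el : l = ((1 + u) ^ d)⁻¹ := tendsto_nhds_unique tl' tl2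
  have eu : u = ((1 + l) ^ d)⁻¹ := tendsto_nhds_unique tu' tu2
  have hlpos : 0 < l := by rw [el]; positivity
  have hupos : 0 < u := by rw [eu]; positivity
  have f1 : l * (1 + u) ^ d = 1 := by
    have : (1 + u) ^ d ≠ 0 := by positivity
    rw [el]
    exact inv_mul_cancel₀ this
  have f2 : u * (1 + l) ^ d = 1 := by
    have : (1 + l) ^ d ≠ 0 := by positivity
    rw [eu]
    exact inv_mul_cancel₀ this
  have hlu : l = u := no_two_cycle d (by omega) l u hlpos hupos f1 f2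
  rw [← hlu] at f1
  -- the limit value is below `δ`
  have hkey : ((1 + l) ^ (d + 1))⁻¹ * (1 - δ) < δ := by
    have e1 : ((1 + l) ^ (d + 1))⁻¹ = l / (1 + l) := by
      have h3 : (1 + l) ^ d ≠ 0 := by positivity
      have h4 : (1 + l) ≠ 0 := by positivity
      rw [pow_succ, eq_div_iff h4, mul_inv]
      rw [mul_assoc, inv_mul_cancel₀ h4, mul_one]
      exact (eq_inv_of_mul_eq_one_left f1).symm
    rw [e1, div_mul_eq_mul_div, div_lt_iff₀ (by positivity)]
    by_contra hcon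
    push Not at hcon
    have g1 : δ ≤ l * (1 - 2 * δ) := by nlinarith
    have hδ0 : 0 < δ := by
      by_contra hneg
      push Not at hneg
      have : δ * (1 - δ) ^ d ≤ 0 := mul_nonpos_of_nonpos_of_nonneg hneg (by
        apply pow_nonneg; linarith)
      have : 0 < (1 - 2 * δ) ^ (d + 1) := by
        apply pow_pos; linarith
      linarith
    have g2 : 1 - δ ≤ (1 - 2 * δ) * (1 + l) := by nlinarith
    have g3 : (1 - δ) ^ d ≤ ((1 - 2 * δ) * (1 + l)) ^ d :=
      pow_le_pow_left₀ (by linarith) g2 d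
    have g4 : δ * (1 - δ) ^ d ≤ (l * (1 - 2 * δ)) * ((1 - 2 * δ) * (1 + l)) ^ d :=
      mul_le_mul g1 g3 (by apply pow_nonneg; linarith) (by nlinarith)
    have g5 : (l * (1 - 2 * δ)) * ((1 - 2 * δ) * (1 + l)) ^ d =
        (1 - 2 * δ) ^ (d + 1) * (l * (1 + l) ^ d) := by
      rw [mul_pow, pow_succ]; ring
    rw [g5, f1, mul_one] at g4
    linarith
  have tfin : Tendsto (fun n => ((1 + (bd d n).1) ^ (d + 1))⁻¹ * (1 - δ)) atTop
      (𝓝 (((1 + l) ^ (d + 1))⁻¹ * (1 - δ))) :=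
    (((tl.const_add 1).pow (d + 1)).inv₀ (by positivity)).mul_const _
  exact ((tendsto_order.1 tfin).2 δ hkey).exists

end Pool.Agent.FewCovers
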