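import Mathlib

/-!
MP_a217f7_co.  Posets with few lower covers: the local inequality (FKG inequality on the ideals
which do not contain a given element).
-/

set_option autoImplicit false

namespace Pool.Agent.FewCovers

open Classical in
/-- The number of sets with the property `p`, as a real number. -/
noncomputable def cnt {P : Type} [Fintype P] (p : Set P → Prop) : ℝ :=
  ∑ s : Set P, if p s then 1 else 0

theorem cnt_eq {P : Type} [Fintype P] (p : Set P → Prop) :
    cnt p = ((Set.ncard {s : Set P | p s} : ℕ) : ℝ) := by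
  classical
  unfold cnt
  rw [Finset.sum_boole, Set.ncard_eq_toFinset_card']
  congr 2
  ext s
  simp

theorem cnt_nonneg {P : Type} [Fintype P] (p : Set P → Prop) : 0 ≤ cnt p := by
  rw [cnt_eq]; positivity

theorem cnt_mono {P : Type} [Fintype P] {p q : Set P → Prop} (h : ∀ s, p s → q s) :
    cnt p ≤ cnt q := by
  classical
  unfold cnt
  apply Finset.sum_le_sum
  intro s _
  by_cases hp : p s
  · simp [hp, h s hp]
  · by_cases hq : q s <;> simp [hp, hq]

theorem cnt_split {P : Type} [Fintype P] (p q : Set P → Prop) :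
    cnt p = cnt (fun s => p s ∧ q s) + cnt (fun s => p s ∧ ¬ q s) := by
  classical
  unfold cnt
  rw [← Finset.sum_add_distrib]
  apply Finset.sum_congr rfl
  intro s _
  by_cases hp : p s <;> by_cases hq : q s <;> simp [hp, hq]

theorem cnt_congr {P : Type} [Fintype P] {p q : Set P → Prop} (h : ∀ s, p s ↔ q s) :
    cnt p = cnt q := by
  have : p = q := funext fun s => propext (h s)
  rw [this]

theorem cnt_le_of_inj {P : Type} [Fintype P] {p q : Set P → Prop} (f : Set P → Set P)
    (hf : ∀ s, p s → q (f s)) (hinj : ∀ s t, p s → p t → f s = f t → s = t) :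
    cnt p ≤ cnt q := by
  rw [cnt_eq, cnt_eq]
  norm_cast
  apply Set.ncard_le_ncard_of_injOn f
  · intro s hs; exact hf s hs
  · intro s hs t ht h; exact hinj s t hs ht h

theorem fkg_cnt {P : Type} [Fintype P] (m f g : Set P → Prop)
    (hf : ∀ s t, s ⊆ t → f s → f t) (hg : ∀ s t, s ⊆ t → g s → g t)
    (hm : ∀ s t, m s → m t → m (s ∩ t) ∧ m (s ∪ t)) :
    cnt (fun s => m s ∧ f s) * cnt (fun s => m s ∧ g s) ≤
      cnt m * cnt (fun s => m s ∧ f s ∧ g s) := by
  classical
  have key := fkg (α := Set P) (β := ℝ) (fun s => if f s then 1 else 0)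
    (fun s => if g s then 1 else 0) (fun s => if m s then 1 else 0)
    (by intro s; by_cases h : m s <;> simp [h])
    (by intro s; by_cases h : f s <;> simp [h])
    (by intro s; by_cases h : g s <;> simp [h])
    (by
      intro s t hst
      by_cases h : f s
      · simp [h, hf s t hst h]
      · by_cases h2 : f t <;> simp [h, h2])
    (by
      intro s t hst
      by_cases h : g s
      · simp [h, hg s t hst h]
      · by_cases h2 : g t <;> simp [h, h2])
    (by
      intro s t
      by_cases h : m s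
      · by_cases h2 : m t
        · obtain ⟨h3, h4⟩ := hm s t h h2
          simp [h, h2, h3, h4]
        · simp only [h2, if_false, mul_zero]
          positivity
      · simp only [h, if_false, zero_mul]
        positivity)
  have e1 : (∑ s : Set P, (if m s then (1:ℝ) else 0) * (if f s then 1 else 0)) =
      cnt (fun s => m s ∧ f s) := by
    unfold cnt
    apply Finset.sum_congr rfl
    intro s _
    by_cases h : m s <;> by_cases h2 : f s <;> simp [h, h2]
  have e2 : (∑ s : Set P, (if m s then (1:ℝ) else 0) * (if g s then 1 else 0)) =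
      cnt (fun s => m s ∧ g s) := by
    unfold cnt
    apply Finset.sum_congr rfl
    intro s _
    by_cases h : m s <;> by_cases h2 : g s <;> simp [h, h2]
  have e3 : (∑ s : Set P, (if m s then (1:ℝ) else 0) *
      ((if f s then 1 else 0) * (if g s then 1 else 0))) =
      cnt (fun s => m s ∧ f s ∧ g s) := by
    unfold cnt
    apply Finset.sum_congr rfl
    intro s _
    by_cases h : m s <;> by_cases h2 : f s <;> by_cases h3 : g s <;> simp [h, h2, h3]
  have e4 : (∑ s : Set P, (if m s then (1:ℝ) else 0)) = cnt m := by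
    unfold cnt
    apply Finset.sum_congr rfl
    intro s _
    rfl
  rw [e1, e2, e3, e4] at key
  exact key

/-- The number of order ideals. -/
noncomputable def NI (P : Type) [Fintype P] [PartialOrder P] : ℝ :=
  cnt (fun s : Set P => IsLowerSet s)

/-- The number of order ideals which contain `x`. -/
noncomputable def NX {P : Type} [Fintype P] [PartialOrder P] (x : P) : ℝ :=
  cnt (fun s : Set P => IsLowerSet s ∧ x ∈ s)

theorem NI_pos (P : Type) [Fintype P] [PartialOrder P] : 0 < NI P := by
  classical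
  unfold NI cnt
  apply Finset.sum_pos'
  · intro s _; positivity
  · exact ⟨∅, Finset.mem_univ _, by simp [isLowerSet_empty]⟩

/-- Product bound for the ideals which avoid `y` and contain a set `D` of elements. -/
theorem prod_bound {P : Type} [Fintype P] [PartialOrder P] (y : P) (q : ℝ) (hq : 0 ≤ q)
    (D : Finset P)
    (hD : ∀ d ∈ D, q * cnt (fun s : Set P => IsLowerSet s ∧ y ∉ s) ≤
      cnt (fun s : Set P => (IsLowerSet s ∧ y ∉ s) ∧ d ∈ s)) :
    q ^ D.card * cnt (fun s : Set P => IsLowerSet s ∧ y ∉ s) ≤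
      cnt (fun s : Set P => (IsLowerSet s ∧ y ∉ s) ∧ ∀ d ∈ D, d ∈ s) := by
  classical
  have hpos : 0 < cnt (fun s : Set P => IsLowerSet s ∧ y ∉ s) := by
    unfold cnt
    apply Finset.sum_pos'
    · intro s _; positivity
    · exact ⟨∅, Finset.mem_univ _, by simp [isLowerSet_empty]⟩
  induction D using Finset.induction_on with
  | empty => simp
  | insert a D ha ih =>
    have ih' := ih (fun d hd => hD d (Finset.mem_insert_of_mem hd))
    have ha' := hD a (Finset.mem_insert_self _ _)
    have hf := fkg_cnt (fun s : Set P => IsLowerSet s ∧ y ∉ s) (fun s => a ∈ s)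
      (fun s => ∀ d ∈ D, d ∈ s) (fun s t hst h => hst h)
      (fun s t hst h d hd => hst (h d hd))
      (fun s t hs ht => ⟨⟨hs.1.inter ht.1, fun h => hs.2 h.1⟩,
        ⟨hs.1.union ht.1, fun h => h.elim hs.2 ht.2⟩⟩)
    have e : cnt (fun s : Set P => (IsLowerSet s ∧ y ∉ s) ∧ ∀ d ∈ insert a D, d ∈ s) =
        cnt (fun s : Set P => (IsLowerSet s ∧ y ∉ s) ∧ a ∈ s ∧ ∀ d ∈ D, d ∈ s) := by
      apply cnt_congr
      intro s
      simp [Finset.mem_insert]
    rw [e, Finset.card_insert_of_notMem ha, pow_succ]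
    have h1 : q ^ D.card * cnt (fun s : Set P => IsLowerSet s ∧ y ∉ s) *
        (q * cnt (fun s : Set P => IsLowerSet s ∧ y ∉ s)) ≤
        cnt (fun s : Set P => IsLowerSet s ∧ y ∉ s) *
        cnt (fun s : Set P => (IsLowerSet s ∧ y ∉ s) ∧ a ∈ s ∧ ∀ d ∈ D, d ∈ s) := by
      refine le_trans ?_ hf
      rw [mul_comm]
      exact mul_le_mul ha' ih' (by positivity) (cnt_nonneg _)
    have h2 : cnt (fun s : Set P => IsLowerSet s ∧ y ∉ s) *
        (q ^ D.card * q * cnt (fun s : Set P => IsLowerSet s ∧ y ∉ s)) ≤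
        cnt (fun s : Set P => IsLowerSet s ∧ y ∉ s) *
        cnt (fun s : Set P => (IsLowerSet s ∧ y ∉ s) ∧ a ∈ s ∧ ∀ d ∈ D, d ∈ s) := by
      refine le_trans (le_of_eq ?_) h1
      ring
    exact le_of_mul_le_mul_left h2 hpos

/-- Adding `y` to the ideals which avoid `y` and contain a set `D` which dominates all elements
below `y`. -/
theorem add_bound {P : Type} [Fintype P] [PartialOrder P] (y : P) (D : Finset P)
    (hdom : ∀ z, z < y → ∃ d ∈ D, z ≤ d) :
    cnt (fun s : Set P => (IsLowerSet s ∧ y ∉ s) ∧ ∀ d ∈ D, d ∈ s) ≤ NX y := by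
  apply cnt_le_of_inj (fun s => insert y s)
  · rintro s ⟨⟨h1, h2⟩, h3⟩
    refine ⟨?_, Set.mem_insert _ _⟩
    intro a b hba ha
    rcases Set.mem_insert_iff.1 ha with rfl | ha
    · rcases hba.eq_or_lt with rfl | hlt
      · exact Set.mem_insert _ _
      · obtain ⟨d, hd, hbd⟩ := hdom b hlt
        exact Set.mem_insert_of_mem _ (h1 hbd (h3 d hd))
    · exact Set.mem_insert_of_mem _ (h1 hba ha)
  · rintro s t ⟨⟨h1, h2⟩, h3⟩ ⟨⟨h1', h2'⟩, h3'⟩ h
    ext z
    by_cases hz : z = y
    · subst hz; simp [h2, h2']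
    · have := Set.ext_iff.1 h z
      simpa [hz] using this

/-- **Local lemma.**  If `y` has small probability, then the elements below `y` are not dominated
by at most `k` elements of large probability. -/
theorem local_low {P : Type} [Fintype P] [PartialOrder P] (k : ℕ) (hk : 1 ≤ k) (δ : ℝ)
    (h0 : 0 < δ) (h1 : δ < 1 / 2) (hδ : δ * (1 - δ) ^ (k - 1) ≤ (1 - 2 * δ) ^ k)
    (y : P) (hy : NX y < δ * NI P) (D : Finset P) (hDcard : D.card ≤ k)
    (hdom : ∀ z, z < y → ∃ d ∈ D, z ≤ d)
    (hd : ∀ d ∈ D, (1 - δ) * NI P < NX d) : False := by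
  classical
  have hN := NI_pos P
  set N := NI P with hNdef
  set n := cnt (fun s : Set P => IsLowerSet s ∧ y ∉ s) with hn
  have hsplit : N = NX y + n := by
    rw [hNdef, NI, cnt_split (fun s : Set P => IsLowerSet s) (fun s => y ∈ s)]
    rfl
  have hnbig : (1 - δ) * N < n := by nlinarith
  have hnpos : 0 < n := by
    have : 0 < (1 - δ) * N := mul_pos (by linarith) hN
    linarith
  -- the factor
  set q := 1 - δ * N / n with hq
  have hq0 : 1 - δ / (1 - δ) < q := by
    rw [hq]
    have : δ * N / n < δ / (1 - δ) := by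
      rw [div_lt_div_iff₀ hnpos (by linarith)]
      nlinarith
    linarith
  have hbase : 0 < 1 - δ / (1 - δ) := by
    have : δ / (1 - δ) < 1 := by
      rw [div_lt_one (by linarith)]; linarith
    linarith
  have hqpos : 0 < q := lt_trans hbase hq0
  have hq1 : q ≤ 1 := by
    rw [hq]
    have : 0 ≤ δ * N / n := by positivity
    linarith
  have hD : ∀ d ∈ D, q * n ≤ cnt (fun s : Set P => (IsLowerSet s ∧ y ∉ s) ∧ d ∈ s) := by
    intro d hdD
    have e1 : n = cnt (fun s : Set P => (IsLowerSet s ∧ y ∉ s) ∧ d ∈ s) +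
        cnt (fun s : Set P => (IsLowerSet s ∧ y ∉ s) ∧ ¬ d ∈ s) := by
      rw [hn]; exact cnt_split _ _
    have e2 : N = NX d + cnt (fun s : Set P => IsLowerSet s ∧ ¬ d ∈ s) := by
      rw [hNdef, NI]; exact cnt_split _ _
    have e3 : cnt (fun s : Set P => (IsLowerSet s ∧ y ∉ s) ∧ ¬ d ∈ s) ≤
        cnt (fun s : Set P => IsLowerSet s ∧ ¬ d ∈ s) :=
      cnt_mono (fun s hs => ⟨hs.1.1, hs.2⟩)
    have e4 := hd d hdD
    have e5 : q * n = n - δ * N := by
      rw [hq]; field_simp
    rw [e5]
    linarith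
  have hP := prod_bound y q hqpos.le D hD
  have hA := add_bound y D hdom
  have hpow : q ^ k ≤ q ^ D.card := pow_le_pow_of_le_one hqpos.le hq1 hDcard
  have hmain : q ^ k * n ≤ NX y :=
    le_trans (mul_le_mul_of_nonneg_right hpow hnpos.le) (le_trans hP hA)
  -- the contradiction
  have hpk : (1 - δ / (1 - δ)) ^ k ≤ q ^ k := pow_le_pow_left₀ hbase.le hq0.le k
  have h3 : (1 - δ / (1 - δ)) ^ k * ((1 - δ) * N) < δ * N := by
    calc (1 - δ / (1 - δ)) ^ k * ((1 - δ) * N) ≤ q ^ k * n :=
          mul_le_mul hpk hnbig.le (mul_pos (by linarith) hN).le (by positivity)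
      _ ≤ NX y := hmain
      _ < δ * N := hy
  have h4 : (1 - δ / (1 - δ)) ^ k * (1 - δ) < δ := by
    have : ((1 - δ / (1 - δ)) ^ k * (1 - δ)) * N < δ * N := by
      calc _ = (1 - δ / (1 - δ)) ^ k * ((1 - δ) * N) := by ring
        _ < _ := h3
    exact lt_of_mul_lt_mul_right this hN.le
  have h5 : 1 - δ / (1 - δ) = (1 - 2 * δ) / (1 - δ) := by
    have : (1 - δ) ≠ 0 := by linarith
    field_simp
    ring
  rw [h5, div_pow] at h4
  obtain ⟨j, rfl⟩ : ∃ j, k = j + 1 := ⟨k - 1, by omega⟩
  simp only [Nat.add_sub_cancel] at hδ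
  have h6 : 0 < (1 - δ) := by linarith
  have h7 : (1 - 2 * δ) ^ (j + 1) / (1 - δ) ^ (j + 1) * (1 - δ) =
      (1 - 2 * δ) ^ (j + 1) / (1 - δ) ^ j := by
    rw [pow_succ (1 - δ) j]
    field_simp
  rw [h7, div_lt_iff₀ (by positivity)] at h4
  linarith

end Pool.Agent.FewCovers
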