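import Pool.Agent.FewCovers.Cut

/-!
MP_a217f7_co.  Posets whose cover graph has only sparse bipartite minors.
-/

set_option autoImplicit false

namespace Pool.Agent.FewCovers

section

variable {P : Type} [Fintype P] [PartialOrder P]

open Classical in
/-- The parent of an element: an upper cover inside `X` or a lower cover outside `X`. -/
noncomputable def par (X : Set P) (p : P) : P :=
  if p ∈ X then (if h : ∃ u, p ⋖ u ∧ u ∈ X then h.choose else p)
  else (if h : ∃ u, u ⋖ p ∧ u ∉ X then h.choose else p)

theorem par_mem (X : Set P) (p : P) : par X p ∈ X ↔ p ∈ X := by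
  classical
  unfold par
  by_cases hp : p ∈ X
  · simp only [hp, if_true]
    by_cases h : ∃ u, p ⋖ u ∧ u ∈ X
    · simp only [h, dif_pos]
      exact iff_of_true h.choose_spec.2 trivial
    · simp only [h, dif_neg, not_false_iff]
      exact iff_of_true hp trivial
  · simp only [hp, if_false]
    by_cases h : ∃ u, u ⋖ p ∧ u ∉ X
    · simp only [h, dif_pos]
      exact iff_of_false h.choose_spec.2 (by simp)
    · simp only [h, dif_neg, not_false_iff]
      exact iff_of_false hp (by simp)

theorem par_adj (X : Set P) (p : P) (h : par X p ≠ p) :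
    (p ∈ X ∧ p ⋖ par X p) ∨ (p ∉ X ∧ par X p ⋖ p) := by
  classical
  unfold par at h ⊢
  by_cases hp : p ∈ X
  · left
    simp only [hp, if_true] at h ⊢
    by_cases h2 : ∃ u, p ⋖ u ∧ u ∈ X
    · simp only [h2, dif_pos]
      exact ⟨trivial, h2.choose_spec.1⟩
    · exact absurd (dif_neg h2) h
  · right
    simp only [hp, if_false] at h ⊢
    by_cases h2 : ∃ u, u ⋖ p ∧ u ∉ X
    · simp only [h2, dif_pos]
      exact ⟨not_false, h2.choose_spec.1⟩
    · exact absurd (dif_neg h2) h

open Classical in
/-- The height function which decreases along parents. -/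
noncomputable def mu (X : Set P) (p : P) : ℕ :=
  if p ∈ X then Set.ncard {z | p < z} else Set.ncard {z | z < p}

theorem mu_lt (X : Set P) (p : P) (h : par X p ≠ p) : mu X (par X p) < mu X p := by
  classical
  have hm := par_mem X p
  rcases par_adj X p h with ⟨h1, h2⟩ | ⟨h1, h2⟩
  · unfold mu
    rw [if_pos (hm.2 h1), if_pos h1]
    apply Set.ncard_lt_ncard _ (Set.toFinite _)
    refine ⟨fun z hz => lt_trans h2.lt hz, fun hcon => ?_⟩
    exact lt_irrefl _ (hcon h2.lt)
  · unfold mu
    rw [if_neg (fun h => h1 (hm.1 h)), if_neg h1]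
    apply Set.ncard_lt_ncard _ (Set.toFinite _)
    refine ⟨fun z hz => lt_trans hz h2.lt, fun hcon => ?_⟩
    exact lt_irrefl _ (hcon h2.lt)

theorem par_iter_fix (X : Set P) (n : ℕ) (p : P) (h : mu X p ≤ n) :
    par X ((par X)^[n] p) = (par X)^[n] p := by
  induction n generalizing p with
  | zero =>
    by_contra hne
    have := mu_lt X p hne
    omega
  | succ n ih =>
    rw [Function.iterate_succ_apply]
    by_cases hne : par X p = p
    · rw [hne]
      have : ∀ m, (par X)^[m] p = p := fun m => Function.iterate_fixed hne m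
      rw [this n, hne]
    · exact ih _ (by have := mu_lt X p hne; omega)

/-- The root of an element. -/
noncomputable def rt (X : Set P) (p : P) : P := (par X)^[Fintype.card P] p

theorem mu_le (X : Set P) (p : P) : mu X p ≤ Fintype.card P := by
  classical
  unfold mu
  split_ifs
  · rw [← Nat.card_eq_fintype_card]; exact Set.ncard_le_card _
  · rw [← Nat.card_eq_fintype_card]; exact Set.ncard_le_card _

theorem rt_fix (X : Set P) (p : P) : par X (rt X p) = rt X p := par_iter_fix X _ p (mu_le X p)

theorem rt_par (X : Set P) (p : P) : rt X (par X p) = rt X p := by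
  have h : rt X (par X p) = par X (rt X p) := by
    unfold rt
    rw [← Function.iterate_succ_apply, Function.iterate_succ_apply']
  rw [h, rt_fix]

theorem rt_iter (X : Set P) (n : ℕ) (p : P) : rt X ((par X)^[n] p) = rt X p := by
  induction n with
  | zero => rfl
  | succ n ih => rw [Function.iterate_succ_apply', rt_par, ih]

theorem rt_rt (X : Set P) (p : P) : rt X (rt X p) = rt X p := rt_iter X _ p

theorem rt_mem (X : Set P) (p : P) : rt X p ∈ X ↔ p ∈ X := by
  have : ∀ n, (par X)^[n] p ∈ X ↔ p ∈ X := by
    intro n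
    induction n with
    | zero => rfl
    | succ n ih => rw [Function.iterate_succ_apply', par_mem, ih]
  exact this _

theorem rt_rel (X : Set P) (p : P) : (p ∈ X → p ≤ rt X p) ∧ (p ∉ X → rt X p ≤ p) := by
  have hmem : ∀ n, (par X)^[n] p ∈ X ↔ p ∈ X := by
    intro n
    induction n with
    | zero => rfl
    | succ n ih => rw [Function.iterate_succ_apply', par_mem, ih]
  have : ∀ n, (p ∈ X → p ≤ (par X)^[n] p) ∧ (p ∉ X → (par X)^[n] p ≤ p) := by
    intro n
    induction n with
    | zero => exact ⟨fun _ => le_rfl, fun _ => le_rfl⟩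
    | succ n ih =>
      rw [Function.iterate_succ_apply']
      by_cases hne : par X ((par X)^[n] p) = (par X)^[n] p
      · rw [hne]; exact ih
      · rcases par_adj X _ hne with ⟨h1, h2⟩ | ⟨h1, h2⟩
        · exact ⟨fun hp => le_trans (ih.1 hp) h2.le, fun hp => absurd ((hmem n).1 h1) hp⟩
        · exact ⟨fun hp => absurd ((hmem n).2 hp) h1, fun hp => le_trans h2.le (ih.2 hp)⟩
  exact this _

/-- Sparse minors give sparse cuts. -/
theorem sparse_of_minors [Nonempty P] (k : ℕ) (h : SparseMinors k P) : SparseCuts k P := by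
  classical
  intro X hX hmin hmax
  obtain ⟨hE, hF⟩ := cut_nonempty hmin hmax
  set W : Type := {m : P // rt X m = m} with hW
  set β : P → Option W := fun p => some ⟨rt X p, rt_rt X p⟩ with hβ
  haveI : Nonempty W := ⟨⟨rt X hE.some, rt_rt X _⟩⟩
  have hβ' : ∀ (p : P) (w : W), β p = some w ↔ rt X p = w.1 := by
    intro p w
    simp only [hβ, Option.some.injEq]
    exact Subtype.ext_iff
  have hconn : ∀ w : W, ((SimpleGraph.hasse P).induce {p | β p = some w}).Connected := by
    intro w
    have hw : w.1 ∈ {p | β p = some w} := by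
      show β w.1 = some w
      rw [hβ']; exact w.2
    have hreach : ∀ (n : ℕ) (p : P) (hp : p ∈ {p | β p = some w})
        (hq : (par X)^[n] p ∈ {p | β p = some w}),
        ((SimpleGraph.hasse P).induce {p | β p = some w}).Reachable ⟨p, hp⟩
          ⟨(par X)^[n] p, hq⟩ := by
      intro n
      induction n with
      | zero => intro p hp hq; exact SimpleGraph.Reachable.refl _
      | succ n ih =>
        intro p hp hq
        have hmid : (par X)^[n] p ∈ {p | β p = some w} := by
          show β ((par X)^[n] p) = some w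
          rw [hβ', rt_iter]
          exact (hβ' p w).1 hp
        refine (ih p hp hmid).trans ?_
        by_cases hne : par X ((par X)^[n] p) = (par X)^[n] p
        · have e : (⟨(par X)^[n + 1] p, hq⟩ : {p // p ∈ {p | β p = some w}}) =
              ⟨(par X)^[n] p, hmid⟩ := by
            apply Subtype.ext
            show (par X)^[n + 1] p = (par X)^[n] p
            rw [Function.iterate_succ_apply', hne]
          rw [e]
        · apply SimpleGraph.Adj.reachable
          rw [SimpleGraph.induce_adj]
          show (SimpleGraph.hasse P).Adj ((par X)^[n] p) ((par X)^[n + 1] p)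
          rw [Function.iterate_succ_apply']
          rcases par_adj X _ hne with ⟨_, h2⟩ | ⟨_, h2⟩
          · exact Or.inl h2
          · exact Or.inr h2
    haveI : Nonempty {p // p ∈ {p | β p = some w}} := ⟨⟨w.1, hw⟩⟩
    refine SimpleGraph.Connected.mk ?_
    have hroot : ∀ (p : P) (hp : p ∈ {p | β p = some w}),
        ((SimpleGraph.hasse P).induce {p | β p = some w}).Reachable ⟨p, hp⟩ ⟨w.1, hw⟩ := by
      intro p hp
      have e : (par X)^[Fintype.card P] p = w.1 := (hβ' p w).1 hp
      have hq : (par X)^[Fintype.card P] p ∈ {p | β p = some w} := by rw [e]; exact hw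
      have := hreach (Fintype.card P) p hp hq
      have e2 : (⟨(par X)^[Fintype.card P] p, hq⟩ : {p // p ∈ {p | β p = some w}}) =
          ⟨w.1, hw⟩ := Subtype.ext e
      rw [e2] at this
      exact this
    rintro ⟨p, hp⟩ ⟨q, hq⟩
    exact (hroot p hp).trans (hroot q hq).symm
  obtain ⟨w, hw⟩ := h W β (fun w => decide (w.1 ∈ X)) hconn
  set B : Set W := {w' : W | decide (w'.1 ∈ X) ≠ decide (w.1 ∈ X) ∧
      ∃ p q : P, β p = some w ∧ β q = some w' ∧ (p ⋖ q ∨ q ⋖ p)} with hB
  have hcard : ((Set.toFinite B).toFinset.map (Function.Embedding.subtype _)).card ≤ k := by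
    rw [Finset.card_map, ← Set.ncard_eq_toFinset_card _ (Set.toFinite _)]
    exact hw
  by_cases hwX : w.1 ∈ X
  · right
    refine ⟨w.1, hwX, (Set.toFinite B).toFinset.map (Function.Embedding.subtype _), hcard, ?_, ?_⟩
    · intro u hu
      simp only [Finset.mem_map, Set.Finite.mem_toFinset, Function.Embedding.subtype_apply] at hu
      obtain ⟨w', hw', rfl⟩ := hu
      intro hcon
      apply hw'.1
      simp [hcon, hwX]
    · intro z hz
      obtain ⟨u, hu, huz⟩ := exists_covBy_le_of_lt hz
      have huX : u ∉ X := by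
        intro huX
        have hfix : par X w.1 = w.1 := by
          have := rt_fix X w.1
          rw [w.2] at this; exact this
        have hex : ∃ u, w.1 ⋖ u ∧ u ∈ X := ⟨u, hu, huX⟩
        unfold par at hfix
        rw [if_pos hwX, dif_pos hex] at hfix
        have h3 := hex.choose_spec.1.lt
        rw [hfix] at h3
        exact lt_irrefl _ h3
      refine ⟨rt X u, ?_, le_trans ((rt_rel X u).2 huX) huz⟩
      simp only [Finset.mem_map, Set.Finite.mem_toFinset, Function.Embedding.subtype_apply]
      refine ⟨⟨rt X u, rt_rt X u⟩, ?_, rfl⟩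
      refine ⟨?_, w.1, u, (hβ' _ _).2 w.2, (hβ' _ _).2 rfl, Or.inl hu⟩
      have : rt X u ∉ X := fun h => huX ((rt_mem X u).1 h)
      simp [this, hwX]
  · left
    refine ⟨w.1, hwX, (Set.toFinite B).toFinset.map (Function.Embedding.subtype _), hcard, ?_, ?_⟩
    · intro u hu
      simp only [Finset.mem_map, Set.Finite.mem_toFinset, Function.Embedding.subtype_apply] at hu
      obtain ⟨w', hw', rfl⟩ := hu
      by_contra hcon
      apply hw'.1
      simp [hcon, hwX]
    · intro z hz
      obtain ⟨u, hzu, hu⟩ := exists_le_covBy_of_lt hz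
      have huX : u ∈ X := by
        by_contra huX
        have hfix : par X w.1 = w.1 := by
          have := rt_fix X w.1
          rw [w.2] at this; exact this
        have hex : ∃ u, u ⋖ w.1 ∧ u ∉ X := ⟨u, hu, huX⟩
        unfold par at hfix
        rw [if_neg hwX, dif_pos hex] at hfix
        have h3 := hex.choose_spec.1.lt
        rw [hfix] at h3
        exact lt_irrefl _ h3
      refine ⟨rt X u, ?_, le_trans hzu ((rt_rel X u).1 huX)⟩
      simp only [Finset.mem_map, Set.Finite.mem_toFinset, Function.Embedding.subtype_apply]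
      refine ⟨⟨rt X u, rt_rt X u⟩, ?_, rfl⟩
      refine ⟨?_, w.1, u, (hβ' _ _).2 w.2, (hβ' _ _).2 rfl, Or.inr hu⟩
      have : rt X u ∈ X := (rt_mem X u).2 huX
      simp [this, hwX]

end

end Pool.Agent.FewCovers
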