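import Pool.Agent.FewCovers.Cut
import Pool.Agent.FewCovers.Limit
import Pool.Agent.FewCovers.Cayley

/-!
MP_a217f7_co.  The posets of length one of the bipartite regular graphs of large girth.
-/

set_option autoImplicit false

namespace Pool.Agent.FewCovers

/-- The order of length one of a coloured bipartite graph. -/
def bipOrder {V : Type} {k : ℕ} (nb : Fin k → V → V) (c : V → Bool) : PartialOrder V where
  le x y := x = y ∨ (c x = false ∧ c y = true ∧ ∃ a, nb a x = y)
  le_refl x := Or.inl rfl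
  le_trans x y z hxy hyz := by
    rcases hxy with rfl | ⟨h1, h2, h3⟩
    · exact hyz
    · rcases hyz with rfl | ⟨h4, _, _⟩
      · exact Or.inr ⟨h1, h2, h3⟩
      · rw [h2] at h4; exact absurd h4 (by simp)
  le_antisymm x y hxy hyx := by
    rcases hxy with rfl | ⟨h1, h2, h3⟩
    · rfl
    · rcases hyx with rfl | ⟨h4, _, _⟩
      · rfl
      · rw [h2] at h4; exact absurd h4 (by simp)

/-- Exchange the lower half. -/
def flipEquiv {V : Type} (c : V → Bool) : Set V ≃ Set V where
  toFun s := {v | v ∈ s ↔ c v = true}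
  invFun s := {v | v ∈ s ↔ c v = true}
  left_inv s := by
    ext v
    show ((v ∈ s ↔ c v = true) ↔ c v = true) ↔ v ∈ s
    tauto
  right_inv s := by
    ext v
    show ((v ∈ s ↔ c v = true) ↔ c v = true) ↔ v ∈ s
    tauto

/-- Counting sets and counting finsets. -/
theorem cnt_finset {V : Type} [Fintype V] (p : Finset V → Prop) [DecidablePred p] :
    cnt (fun s : Set V => ∃ T : Finset V, (T : Set V) = s ∧ p T) =
      ((Finset.univ.filter (fun T : Finset V => p T)).card : ℝ) := by
  rw [cnt_eq]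
  norm_cast
  have : {s : Set V | ∃ T : Finset V, (T : Set V) = s ∧ p T} =
      (fun T : Finset V => (T : Set V)) '' ((Finset.univ.filter (fun T : Finset V => p T) : Finset (Finset V)) : Set (Finset V)) := by
    ext s
    simp only [Set.mem_image, Finset.coe_filter, Finset.mem_univ, true_and]
    constructor
    · rintro ⟨T, h1, h2⟩; exact ⟨T, h2, h1⟩
    · rintro ⟨T, h2, h1⟩; exact ⟨T, h1, h2⟩
  rw [this, Set.ncard_image_of_injective _ Finset.coe_injective, Set.ncard_coe_finset]

section

variable {V : Type} [Fintype V] [DecidableEq V] {k M : ℕ} {nb : Fin k → V → V} {c : V → Bool}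

theorem lower_iff (hG : Girth nb M) (hc : ∀ a v, c (nb a v) = !c v) (s : Set V) (T : Finset V)
    (hT : (T : Set V) = flipEquiv c s) :
    @IsLowerSet V (bipOrder nb c).toLE s ↔ Indep nb T := by
  have hmem : ∀ v, v ∈ T ↔ (v ∈ s ↔ c v = true) := by
    intro v
    have : v ∈ (T : Set V) ↔ v ∈ flipEquiv c s := by rw [hT]
    exact this
  constructor
  · intro h v hv a ha
    rw [hmem] at hv ha
    rw [hc] at ha
    cases hcv : c v with
    | true =>
      rw [hcv] at hv ha
      have h1 : v ∈ s := hv.2 rfl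
      have h2 : nb a v ∈ s := h (a := v) (b := nb a v)
        (Or.inr ⟨by rw [hc, hcv]; rfl, hcv, a, hG.inv a v⟩) h1
      exact absurd (ha.1 h2) (by simp)
    | false =>
      rw [hcv] at hv ha
      have h1 : nb a v ∈ s := ha.2 rfl
      have h2 : v ∈ s := h (a := nb a v) (b := v)
        (Or.inr ⟨hcv, by rw [hc, hcv]; rfl, a, rfl⟩) h1
      exact absurd (hv.1 h2) (by simp)
  · intro h y x hxy hy
    rcases hxy with rfl | ⟨h1, h2, a, rfl⟩
    · exact hy
    · by_contra hx
      have hxT : x ∈ T := by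
        rw [hmem, h1]
        exact ⟨fun h => absurd h hx, fun h => absurd h (by simp)⟩
      have hyT : nb a x ∈ T := by
        rw [hmem, h2]
        exact ⟨fun _ => rfl, fun _ => hy⟩
      exact h x hxT a hyT

theorem NI_bip (hG : Girth nb M) (hc : ∀ a v, c (nb a v) = !c v) :
    @NI V _ (bipOrder nb c) = (Z nb Finset.univ : ℝ) := by
  classical
  unfold NI
  have e1 : cnt (fun s : Set V => @IsLowerSet V (bipOrder nb c).toLE s) =
      cnt (fun s : Set V => ∃ T : Finset V, (T : Set V) = s ∧ Indep nb T) := by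
    refine cnt_equiv (flipEquiv c) ?_
    intro s
    constructor
    · intro h
      exact ⟨(flipEquiv c s).toFinset, by simp, (lower_iff hG hc s _ (by simp)).1 h⟩
    · rintro ⟨T, hT, h⟩
      exact (lower_iff hG hc s T hT).2 h
  rw [e1, cnt_finset]
  unfold Z
  norm_cast

theorem occ_bip (hG : Girth nb M) (hM : 1 ≤ M) (hc : ∀ a v, c (nb a v) = !c v) (v : V) :
    cnt (fun s : Set V => @IsLowerSet V (bipOrder nb c).toLE s ∧ (v ∈ s ↔ c v = true)) =
      (Z nb (Finset.univ.erase v \ Nb nb v) : ℝ) := by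
  classical
  have e1 : cnt (fun s : Set V => @IsLowerSet V (bipOrder nb c).toLE s ∧ (v ∈ s ↔ c v = true)) =
      cnt (fun s : Set V => ∃ T : Finset V, (T : Set V) = s ∧ (Indep nb T ∧ v ∈ T)) := by
    refine cnt_equiv (flipEquiv c) ?_
    intro s
    constructor
    · rintro ⟨h, h2⟩
      refine ⟨(flipEquiv c s).toFinset, by simp, (lower_iff hG hc s _ (by simp)).1 h, ?_⟩
      rw [Set.mem_toFinset]
      exact h2
    · rintro ⟨T, hT, h, h2⟩
      refine ⟨(lower_iff hG hc s T hT).2 h, ?_⟩
      have : v ∈ flipEquiv c s := by rw [← hT]; exact h2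
      exact this
  rw [e1, cnt_finset, ← Z_mem hG hM (Finset.mem_univ v)]
  norm_cast

theorem occ_small (hG : Girth nb M) (n : ℕ) (hn : n + 3 ≤ M) (hc : ∀ a v, c (nb a v) = !c v)
    (δ : ℝ) (hδ : ((1 + (bd (k - 1) n).1) ^ k)⁻¹ * (1 - δ) < δ) (hδ1 : δ < 1) (v : V) :
    cnt (fun s : Set V => @IsLowerSet V (bipOrder nb c).toLE s ∧ (v ∈ s ↔ c v = true)) <
      δ * @NI V _ (bipOrder nb c) := by
  rw [occ_bip hG (by omega) hc, NI_bip hG hc, Z_ratio hG (by omega) (Finset.mem_univ v)]
  have h1 := occupation hG n hn v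
  have hpos : (0 : ℝ) < Z nb ((Finset.univ : Finset V).erase v) := by exact_mod_cast Z_pos nb _
  set r := R nb Finset.univ v with hr
  have e : (Z nb (Finset.univ.erase v \ Nb nb v) : ℝ) =
      r * (Z nb ((Finset.univ : Finset V).erase v) : ℝ) := by
    rw [hr]; unfold R; field_simp
  rw [e]
  have h2 : r < δ * (1 + r) := by
    have : r * (1 - δ) < δ := lt_of_le_of_lt (mul_le_mul_of_nonneg_right h1 (by linarith)) hδ
    linarith
  calc r * (Z nb ((Finset.univ : Finset V).erase v) : ℝ) <
      (δ * (1 + r)) * (Z nb ((Finset.univ : Finset V).erase v) : ℝ) :=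
        mul_lt_mul_of_pos_right h2 hpos
    _ = _ := by ring

end

/-- **Sharpness.** -/
theorem sharp (k : ℕ) (hk1 : 1 ≤ k) (hk5 : k ≤ 5) (δ : ℝ) (hδ : δ < 1 / 2)
    (h : (1 - 2 * δ) ^ k < δ * (1 - δ) ^ (k - 1)) :
    ∃ (P : Type) (_ : Fintype P) (_ : Nonempty P) (_ : PartialOrder P),
      (∀ a b c : P, a < b → ¬ b < c) ∧
      (∀ v : P, Set.ncard {w : P | w < v ∨ v < w} ≤ k) ∧
      ∀ x : P, NX x < δ * NI P ∨ (1 - δ) * NI P < NX x := by
  classical
  obtain ⟨n, hn⟩ := exists_depth k hk1 hk5 δ hδ h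
  have hG := cnb_girth k (n + 3)
  have hc : ∀ (a : Fin k) (v : CV k (n + 3)), (cnb k (n + 3) a v).1 = !v.1 := fun a v => rfl
  letI fV : Fintype (CV k (n + 3)) := Fintype.ofFinite _
  refine ⟨CV k (n + 3), fV, inferInstance, bipOrder (cnb k (n + 3)) (fun v => v.1), ?_, ?_, ?_⟩
  · intro a b c hab hbc
    have h1 := @le_of_lt _ (bipOrder (cnb k (n + 3)) (fun v => v.1)).toPreorder _ _ hab
    have h2 := @le_of_lt _ (bipOrder (cnb k (n + 3)) (fun v => v.1)).toPreorder _ _ hbc
    rcases h1 with h1 | ⟨_, h1, _⟩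
    · subst h1
      exact @lt_irrefl _ (bipOrder (cnb k (n + 3)) (fun v => v.1)).toPreorder _ hab
    · rcases h2 with h2 | ⟨h2, _, _⟩
      · subst h2
        exact @lt_irrefl _ (bipOrder (cnb k (n + 3)) (fun v => v.1)).toPreorder _ hbc
      · rw [h1] at h2; exact absurd h2 (by simp)
  · intro v
    have hsub : {w : CV k (n + 3) | @LT.lt _ (bipOrder (cnb k (n + 3)) (fun v => v.1)).toLT w v ∨
        @LT.lt _ (bipOrder (cnb k (n + 3)) (fun v => v.1)).toLT v w} ⊆
        ((Finset.univ.image (fun a => cnb k (n + 3) a v) : Finset (CV k (n + 3))) :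
          Set (CV k (n + 3))) := by
      intro w hw
      simp only [Finset.coe_image, Finset.coe_univ, Set.image_univ, Set.mem_range]
      rcases hw with hw | hw
      · have h1 := @le_of_lt _ (bipOrder (cnb k (n + 3)) (fun v => v.1)).toPreorder _ _ hw
        rcases h1 with h1 | ⟨_, _, a, ha⟩
        · subst h1
          exact absurd hw (@lt_irrefl _ (bipOrder (cnb k (n + 3)) (fun v => v.1)).toPreorder _)
        · exact ⟨a, by rw [← ha, hG.inv]⟩
      · have h1 := @le_of_lt _ (bipOrder (cnb k (n + 3)) (fun v => v.1)).toPreorder _ _ hw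
        rcases h1 with h1 | ⟨_, _, a, ha⟩
        · subst h1
          exact absurd hw (@lt_irrefl _ (bipOrder (cnb k (n + 3)) (fun v => v.1)).toPreorder _)
        · exact ⟨a, ha⟩
    refine le_trans (Set.ncard_le_ncard hsub (Set.toFinite _)) ?_
    rw [Set.ncard_coe_finset]
    refine le_trans Finset.card_image_le ?_
    simp
  · intro v
    have hocc := occ_small (c := fun v => v.1) hG n (le_refl _) hc δ hn (by linarith) v
    cases hv : v.1 with
    | true =>
      left
      have : cnt (fun s : Set (CV k (n + 3)) =>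
          @IsLowerSet _ (bipOrder (cnb k (n + 3)) (fun v => v.1)).toLE s ∧ (v ∈ s ↔ v.1 = true)) =
          @NX _ fV (bipOrder (cnb k (n + 3)) (fun v => v.1)) v := by
        unfold NX
        apply cnt_congr
        intro s
        simp [hv]
      rw [this] at hocc
      exact hocc
    | false =>
      right
      have h1 : cnt (fun s : Set (CV k (n + 3)) =>
          @IsLowerSet _ (bipOrder (cnb k (n + 3)) (fun v => v.1)).toLE s ∧ (v ∈ s ↔ v.1 = true)) =
          cnt (fun s : Set (CV k (n + 3)) =>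
          @IsLowerSet _ (bipOrder (cnb k (n + 3)) (fun v => v.1)).toLE s ∧ ¬ v ∈ s) := by
        apply cnt_congr
        intro s
        simp [hv]
      rw [h1] at hocc
      have h2 : @NI _ fV (bipOrder (cnb k (n + 3)) (fun v => v.1)) =
          @NX _ fV (bipOrder (cnb k (n + 3)) (fun v => v.1)) v +
          cnt (fun s : Set (CV k (n + 3)) =>
          @IsLowerSet _ (bipOrder (cnb k (n + 3)) (fun v => v.1)).toLE s ∧ ¬ v ∈ s) := by
        unfold NI NX
        exact cnt_split _ _
      linarith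

end Pool.Agent.FewCovers
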