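import Mathlib

/-!
MP_a217f7_co.  Independent sets in edge-coloured regular graphs of large girth: the tree recursion.
-/

set_option autoImplicit false

namespace Pool.Agent.FewCovers

variable {V : Type} [Fintype V] [DecidableEq V] {k : ℕ}

/-- Walk along a list of colours. -/
def act (nb : Fin k → V → V) : List (Fin k) → V → V
  | [], v => v
  | a :: w, v => act nb w (nb a v)

/-- A `k`-regular edge-coloured graph in which reduced words of length at most `M` (not empty)
move every vertex. -/
structure Girth (nb : Fin k → V → V) (M : ℕ) : Prop where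
  inv : ∀ a v, nb a (nb a v) = v
  free : ∀ (w : List (Fin k)) (v : V), w ≠ [] → w.IsChain (· ≠ ·) → w.length ≤ M → act nb w v ≠ v

/-- Independent set. -/
def Indep (nb : Fin k → V → V) (T : Finset V) : Prop := ∀ v ∈ T, ∀ a, nb a v ∉ T

instance (nb : Fin k → V → V) (T : Finset V) : Decidable (Indep nb T) := by
  unfold Indep; infer_instance

/-- Number of independent subsets of `S`. -/
def Z (nb : Fin k → V → V) (S : Finset V) : ℕ := (S.powerset.filter (fun T => Indep nb T)).card

/-- The set of neighbours. -/
def Nb (nb : Fin k → V → V) (v : V) : Finset V := Finset.univ.image (fun a => nb a v)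

theorem Z_pos (nb : Fin k → V → V) (S : Finset V) : 0 < Z nb S := by
  unfold Z
  apply Finset.card_pos.2
  exact ⟨∅, by simp [Indep]⟩

theorem Z_mono (nb : Fin k → V → V) {S S' : Finset V} (h : S ⊆ S') : Z nb S ≤ Z nb S' := by
  unfold Z
  apply Finset.card_le_card
  intro T hT
  simp only [Finset.mem_filter, Finset.mem_powerset] at hT ⊢
  exact ⟨hT.1.trans h, hT.2⟩

/-- Number of independent subsets of `S` containing `v`. -/
theorem Z_mem {nb : Fin k → V → V} {M : ℕ} (hG : Girth nb M) (hM : 1 ≤ M) {S : Finset V} {v : V}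
    (hv : v ∈ S) :
    (S.powerset.filter (fun T => Indep nb T ∧ v ∈ T)).card = Z nb (S.erase v \ Nb nb v) := by
  classical
  have hne : ∀ a, nb a v ≠ v := fun a => by
    have := hG.free [a] v (by simp) (by simp) (by simpa using hM)
    simpa [act] using this
  unfold Z
  refine Finset.card_bij (fun T _ => T.erase v) ?_ ?_ ?_
  · intro T hT
    simp only [Finset.mem_filter, Finset.mem_powerset] at hT ⊢
    obtain ⟨hTS, hT1, hvT⟩ := hT
    constructor
    · intro u hu
      rw [Finset.mem_erase] at hu
      rw [Finset.mem_sdiff, Finset.mem_erase]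
      refine ⟨⟨hu.1, hTS hu.2⟩, ?_⟩
      intro hN
      unfold Nb at hN
      simp only [Finset.mem_image, Finset.mem_univ, true_and] at hN
      obtain ⟨a, rfl⟩ := hN
      exact hT1 v hvT a hu.2
    · intro u hu a ha
      exact hT1 u (Finset.mem_of_mem_erase hu) a (Finset.mem_of_mem_erase ha)
  · intro T hT T' hT' h
    simp only [Finset.mem_filter, Finset.mem_powerset] at hT hT'
    rw [← Finset.insert_erase hT.2.2, ← Finset.insert_erase hT'.2.2, h]
  · intro T hT
    simp only [Finset.mem_filter, Finset.mem_powerset] at hT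
    obtain ⟨hTS, hT1⟩ := hT
    have hvT : v ∉ T := fun h => by
      have := hTS h
      simp at this
    refine ⟨insert v T, ?_, ?_⟩
    · simp only [Finset.mem_filter, Finset.mem_powerset]
      refine ⟨?_, ?_, Finset.mem_insert_self _ _⟩
      · intro u hu
        rcases Finset.mem_insert.1 hu with rfl | hu
        · exact hv
        · have := hTS hu
          simp only [Finset.mem_sdiff, Finset.mem_erase] at this
          exact this.1.2
      · intro u hu a ha
        rcases Finset.mem_insert.1 hu with rfl | hu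
        · rcases Finset.mem_insert.1 ha with h | h
          · exact hne a h
          · have := hTS h
            rw [Finset.mem_sdiff] at this
            exact this.2 (by unfold Nb; simp)
        · rcases Finset.mem_insert.1 ha with h | h
          · have h2 : u = nb a v := by rw [← h, hG.inv]
            have := hTS hu
            rw [Finset.mem_sdiff] at this
            exact this.2 (by unfold Nb; rw [h2]; simp)
          · exact hT1 u hu a h
    · exact Finset.erase_insert hvT

theorem Z_split {nb : Fin k → V → V} {M : ℕ} (hG : Girth nb M) (hM : 1 ≤ M) {S : Finset V} {v : V}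
    (hv : v ∈ S) : Z nb S = Z nb (S.erase v) + Z nb (S.erase v \ Nb nb v) := by
  classical
  rw [← Z_mem hG hM hv]
  have h1 : Z nb S = (S.powerset.filter (fun T => Indep nb T ∧ v ∉ T)).card +
      (S.powerset.filter (fun T => Indep nb T ∧ v ∈ T)).card := by
    unfold Z
    rw [← Finset.card_union_of_disjoint]
    · congr 1
      ext T
      simp only [Finset.mem_filter, Finset.mem_union]
      by_cases h : v ∈ T <;> simp [h]
    · rw [Finset.disjoint_filter]
      intro T _ h1 h2
      exact h1.2 h2.2
  rw [h1]
  congr 1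
  unfold Z
  congr 1
  ext T
  simp only [Finset.mem_filter, Finset.mem_powerset]
  constructor
  · rintro ⟨h1, h2, h3⟩
    refine ⟨?_, h2⟩
    intro u hu
    exact Finset.mem_erase.2 ⟨fun h => h3 (h ▸ hu), h1 hu⟩
  · rintro ⟨h1, h2⟩
    refine ⟨fun u hu => Finset.mem_of_mem_erase (h1 hu), h2, ?_⟩
    intro h
    have := h1 h
    simp at this

/-- The occupation ratio. -/
noncomputable def R (nb : Fin k → V → V) (S : Finset V) (v : V) : ℝ :=
  (Z nb (S.erase v \ Nb nb v) : ℝ) / (Z nb (S.erase v) : ℝ)

theorem R_nonneg (nb : Fin k → V → V) (S : Finset V) (v : V) : 0 ≤ R nb S v := by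
  unfold R; positivity

theorem R_le_one (nb : Fin k → V → V) (S : Finset V) (v : V) : R nb S v ≤ 1 := by
  unfold R
  rw [div_le_one (by exact_mod_cast Z_pos nb _)]
  exact_mod_cast Z_mono nb Finset.sdiff_subset

theorem Z_ratio {nb : Fin k → V → V} {M : ℕ} (hG : Girth nb M) (hM : 1 ≤ M) {S : Finset V} {v : V}
    (hv : v ∈ S) : (Z nb S : ℝ) = (Z nb (S.erase v) : ℝ) * (1 + R nb S v) := by
  have hpos : (0 : ℝ) < Z nb (S.erase v) := by exact_mod_cast Z_pos nb _
  rw [Z_split hG hM hv]
  unfold R
  push_cast
  field_simp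

/-- Around `v` the tree of depth `n` in the directions of `C` lies in `S`, and the other
neighbours are not in `S`. -/
def Good (nb : Fin k → V → V) (n : ℕ) (S : Finset V) (v : V) (C : Finset (Fin k)) : Prop :=
  v ∈ S ∧ (∀ b, b ∉ C → nb b v ∉ S) ∧
    ∀ b ∈ C, ∀ w : List (Fin k), (b :: w).IsChain (· ≠ ·) → (b :: w).length ≤ n →
      act nb (b :: w) v ∈ S

theorem act_cons (nb : Fin k → V → V) (a : Fin k) (w : List (Fin k)) (v : V) :
    act nb (a :: w) v = act nb w (nb a v) := rfl

/-- The children of a good vertex are good. -/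
theorem good_child {nb : Fin k → V → V} {M n : ℕ} (hG : Girth nb M) (hn : n + 3 ≤ M)
    {S : Finset V} {v : V} {C : Finset (Fin k)} (h : Good nb (n + 1) S v C)
    {D : Finset (Fin k)} (hD : D ⊆ C) {b : Fin k} (hb : b ∈ C) (hbD : b ∉ D) :
    Good nb n (S.erase v \ D.image (fun a => nb a v)) (nb b v) (Finset.univ.erase b) := by
  classical
  obtain ⟨h1, h2, h3⟩ := h
  have hmem : ∀ w : List (Fin k), (b :: w).IsChain (· ≠ ·) → w.length ≤ n →
      act nb w (nb b v) ∈ S.erase v \ D.image (fun a => nb a v) := by
    intro w hw hl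
    have e : act nb w (nb b v) = act nb (b :: w) v := rfl
    rw [e, Finset.mem_sdiff, Finset.mem_erase]
    refine ⟨⟨?_, ?_⟩, ?_⟩
    · exact hG.free (b :: w) v (by simp) hw (by simp; omega)
    · exact h3 b hb w hw (by simp; omega)
    · intro hI
      simp only [Finset.mem_image] at hI
      obtain ⟨c, hc, hce⟩ := hI
      have hcb : c ≠ b := fun h => hbD (h ▸ hc)
      have h4 := hG.free (c :: b :: w) (nb c v) (by simp)
        (by
          rw [List.isChain_cons_cons]
          exact ⟨hcb, hw⟩) (by simp; omega)
      apply h4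
      rw [act_cons, hG.inv, hce]
  refine ⟨?_, ?_, ?_⟩
  · exact hmem [] (by simp) (by simp)
  · intro a ha
    have : a = b := by simpa using ha
    subst this
    rw [hG.inv]
    simp
  · intro a ha w hw hl
    have hab : a ≠ b := by simpa using ha
    apply hmem (a :: w)
    · rw [List.isChain_cons_cons]
      exact ⟨hab.symm, hw⟩
    · simpa using hl

/-- One step of the recursion. -/
theorem step {nb : Fin k → V → V} {M n : ℕ} (hG : Girth nb M) (hn : n + 3 ≤ M)
    {lo up : ℝ} (hlo : 0 ≤ lo)
    (hrec : ∀ (S : Finset V) (v : V) (b : Fin k), Good nb n S v (Finset.univ.erase b) →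
      lo ≤ R nb S v ∧ R nb S v ≤ up)
    {S : Finset V} {v : V} {C : Finset (Fin k)} (h : Good nb (n + 1) S v C) :
    ((1 + up) ^ C.card)⁻¹ ≤ R nb S v ∧ R nb S v ≤ ((1 + lo) ^ C.card)⁻¹ := by
  classical
  have key : ∀ D : Finset (Fin k), D ⊆ C →
      (Z nb (S.erase v) : ℝ) ≤
        (Z nb (S.erase v \ D.image (fun a => nb a v)) : ℝ) * (1 + up) ^ D.card ∧
      (Z nb (S.erase v \ D.image (fun a => nb a v)) : ℝ) * (1 + lo) ^ D.card ≤
        (Z nb (S.erase v) : ℝ) := by
    intro D
    induction D using Finset.induction_on with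
    | empty => intro _; simp
    | insert b D hbD ih =>
      intro hD
      have hb : b ∈ C := hD (Finset.mem_insert_self _ _)
      have hDC : D ⊆ C := fun x hx => hD (Finset.mem_insert_of_mem hx)
      obtain ⟨ih1, ih2⟩ := ih hDC
      have hg := good_child hG hn h hDC hb hbD
      obtain ⟨r1, r2⟩ := hrec _ _ _ hg
      have hZ := Z_ratio hG (by omega) hg.1
      have e : (S.erase v \ D.image (fun a => nb a v)).erase (nb b v) =
          S.erase v \ (insert b D).image (fun a => nb a v) := by
        ext u
        simp only [Finset.mem_erase, Finset.mem_sdiff, Finset.image_insert, Finset.mem_insert]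
        tauto
      rw [e] at hZ
      rw [Finset.card_insert_of_notMem hbD, pow_succ, pow_succ]
      set A : ℝ := (Z nb (S.erase v \ D.image (fun a => nb a v)) : ℝ) with hA
      set B : ℝ := (Z nb (S.erase v \ (insert b D).image (fun a => nb a v)) : ℝ) with hB
      set r := R nb (S.erase v \ D.image (fun a => nb a v)) (nb b v) with hr
      have hBpos : 0 ≤ B := by positivity
      have hup : 0 ≤ up := le_trans hlo (le_trans r1 r2)
      constructor
      · calc (Z nb (S.erase v) : ℝ) ≤ A * (1 + up) ^ D.card := ih1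
          _ = B * (1 + r) * (1 + up) ^ D.card := by rw [hZ]
          _ ≤ B * (1 + up) * (1 + up) ^ D.card := by
            apply mul_le_mul_of_nonneg_right _ (by positivity)
            exact mul_le_mul_of_nonneg_left (by linarith) hBpos
          _ = B * ((1 + up) ^ D.card * (1 + up)) := by ring
      · calc B * ((1 + lo) ^ D.card * (1 + lo)) = B * (1 + lo) * (1 + lo) ^ D.card := by ring
          _ ≤ B * (1 + r) * (1 + lo) ^ D.card := by
            apply mul_le_mul_of_nonneg_right _ (by positivity)
            exact mul_le_mul_of_nonneg_left (by linarith) hBpos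
          _ = A * (1 + lo) ^ D.card := by rw [hZ]
          _ ≤ (Z nb (S.erase v) : ℝ) := ih2
  obtain ⟨k1, k2⟩ := key C (Finset.Subset.refl _)
  have e : S.erase v \ C.image (fun a => nb a v) = S.erase v \ Nb nb v := by
    ext u
    simp only [Finset.mem_sdiff, Nb]
    constructor
    · rintro ⟨h1, h2⟩
      refine ⟨h1, ?_⟩
      intro h3
      simp only [Finset.mem_image, Finset.mem_univ, true_and] at h2 h3
      obtain ⟨a, ha⟩ := h3
      by_cases haC : a ∈ C
      · exact h2 ⟨a, haC, ha⟩
      · exact h.2.1 a haC (by rw [ha]; exact Finset.mem_of_mem_erase h1)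
    · rintro ⟨h1, h2⟩
      refine ⟨h1, ?_⟩
      intro h3
      simp only [Finset.mem_image, Finset.mem_univ, true_and] at h2 h3
      obtain ⟨a, _, ha⟩ := h3
      exact h2 ⟨a, ha⟩
  rw [e] at k1 k2
  have hpos : (0 : ℝ) < Z nb (S.erase v) := by exact_mod_cast Z_pos nb _
  have hlo1 : (0 : ℝ) < (1 + lo) ^ C.card := by positivity
  have hup1 : (0 : ℝ) < (1 + up) ^ C.card := by
    by_contra hcon
    push Not at hcon
    have : (Z nb (S.erase v \ Nb nb v) : ℝ) * (1 + up) ^ C.card ≤ 0 :=
      mul_nonpos_of_nonneg_of_nonpos (by positivity) hcon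
    linarith
  unfold R
  constructor
  · rw [inv_eq_one_div, div_le_div_iff₀ hup1 hpos]
    linarith
  · rw [inv_eq_one_div, div_le_div_iff₀ hpos hlo1]
    linarith

/-- Lower and upper bounds of the recursion (`d = k - 1`). -/
noncomputable def bd (d : ℕ) : ℕ → ℝ × ℝ
  | 0 => (0, 1)
  | n + 1 => (((1 + (bd d n).2) ^ d)⁻¹, ((1 + (bd d n).1) ^ d)⁻¹)

theorem bd_nonneg (d n : ℕ) : 0 ≤ (bd d n).1 ∧ 0 ≤ (bd d n).2 := by
  induction n with
  | zero => simp [bd]
  | succ n ih =>
    obtain ⟨h1, h2⟩ := ih
    simp only [bd]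
    constructor <;> positivity

theorem recursion {nb : Fin k → V → V} {M : ℕ} (hG : Girth nb M) (n : ℕ) (hn : n + 2 ≤ M)
    (S : Finset V) (v : V) (b : Fin k) (h : Good nb n S v (Finset.univ.erase b)) :
    (bd (k - 1) n).1 ≤ R nb S v ∧ R nb S v ≤ (bd (k - 1) n).2 := by
  induction n generalizing S v b with
  | zero => exact ⟨by simpa [bd] using R_nonneg nb S v, by simpa [bd] using R_le_one nb S v⟩
  | succ n ih =>
    have hs := step (n := n) hG (by omega) (bd_nonneg (k - 1) n).1
      (fun S v b hg => ih (by omega) S v b hg) h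
    have hc : (Finset.univ.erase b : Finset (Fin k)).card = k - 1 := by
      rw [Finset.card_erase_of_mem (Finset.mem_univ _), Finset.card_univ, Fintype.card_fin]
    rw [hc] at hs
    exact hs

/-- Upper bound for the occupation probability of any vertex. -/
theorem occupation {nb : Fin k → V → V} {M : ℕ} (hG : Girth nb M) (n : ℕ) (hn : n + 3 ≤ M) (v : V) :
    R nb Finset.univ v ≤ ((1 + (bd (k - 1) n).1) ^ k)⁻¹ := by
  have hg : Good nb (n + 1) Finset.univ v Finset.univ :=
    ⟨Finset.mem_univ _, fun b hb => absurd (Finset.mem_univ b) hb, fun _ _ _ _ _ => Finset.mem_univ _⟩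
  have hs := (step (n := n) hG hn (bd_nonneg (k - 1) n).1
      (fun S v b hg => recursion hG n (by omega) S v b hg) hg).2
  simpa using hs

end Pool.Agent.FewCovers
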